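import Pool.Agent.H96.CP.Stm9

/-! # Project CP3 (helper96): module SCALE (helper59) -/

set_option autoImplicit false

open Real Set MeasureTheory Metric Filter Topology
open scoped ENNReal Nat ComplexConjugate

namespace Pool.Agent.H96.CP

theorem cc_pre (a L t : ℝ) (ht : 0 < t) (M : ℕ) :
    CC (t * a) (t * L) (Fin M) = (fun x : Fin M → ℂ => t⁻¹ • x) ⁻¹' CC a L (Fin M) := by
  ext x
  simp only [CC, Set.mem_ofPred_eq, Set.mem_preimage, Pi.smul_apply, Complex.real_smul, Set.mem_Icc]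
  have hre : ∀ i, (((t⁻¹ : ℝ) : ℂ) * x i).re = t⁻¹ * (x i).re := fun i => by simp [Complex.mul_re]
  have him : ∀ i, (((t⁻¹ : ℝ) : ℂ) * x i).im = t⁻¹ * (x i).im := fun i => by simp [Complex.mul_im]
  have hn : ∀ i j, ‖((t⁻¹ : ℝ) : ℂ) * x i - ((t⁻¹ : ℝ) : ℂ) * x j‖ = t⁻¹ * ‖x i - x j‖ := fun i j => by
    rw [← mul_sub, norm_mul, Complex.norm_real, Real.norm_eq_abs, abs_of_pos (inv_pos.2 ht)]
  have h1 : ∀ y : ℝ, 0 ≤ y ∧ y ≤ t * L ↔ 0 ≤ t⁻¹ * y ∧ t⁻¹ * y ≤ L := fun y => by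
    constructor
    · rintro ⟨h1, h2⟩
      refine ⟨by positivity, ?_⟩
      rw [inv_mul_le_iff₀ ht]
      exact h2
    · rintro ⟨h1, h2⟩
      refine ⟨?_, ?_⟩
      · exact (mul_nonneg_iff_of_pos_left (inv_pos.2 ht)).1 h1
      · rwa [inv_mul_le_iff₀ ht] at h2
  have h2 : ∀ y : ℝ, 2 * (t * a) ≤ y ↔ 2 * a ≤ t⁻¹ * y := fun y => by
    rw [le_inv_mul_iff₀ ht]
    constructor <;> intro h <;> linarith
  simp only [hre, him, hn]
  constructor
  · rintro ⟨g1, g2⟩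
    exact ⟨fun i => ⟨(h1 _).1 (g1 i).1, (h1 _).1 (g1 i).2⟩, fun i j hij => (h2 _).1 (g2 i j hij)⟩
  · rintro ⟨g1, g2⟩
    exact ⟨fun i => ⟨(h1 _).2 (g1 i).1, (h1 _).2 (g1 i).2⟩, fun i j hij => (h2 _).2 (g2 i j hij)⟩

theorem scale : S_scale := by
  intro a L t M ht
  unfold CV
  rw [cc_pre a L t ht M, Measure.addHaar_preimage_smul volume (inv_ne_zero ht.ne'), ENNReal.toReal_mul]
  congr 1
  have hf : Module.finrank ℝ (Fin M → ℂ) = 2 * M := by
    rw [Module.finrank_pi_fintype]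
    simp [Complex.finrank_real_complex]
    ring
  rw [hf, inv_pow, inv_inv, abs_of_pos (pow_pos ht _), ENNReal.toReal_ofReal (pow_pos ht _).le]

end Pool.Agent.H96.CP
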